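import Pool.Agent.J6H2.NV.Vec
import Pool.Agent.J6H2.NP.Avg

set_option autoImplicit false
set_option linter.all false

/-! The engine for several random polynomials. -/

namespace Pool.Agent.J6H2.NV

open Finset Polynomial
open Pool.Agent.N430.BP.FF (mn mn_add mn_sum mn_mul_left mn_const abs_mn_le)
open Pool.Agent.J6H2.NP (rk rk_bounds IR mem_IR dens_le ED TT count_main near_point pt pt_norm bigIdx nearIdx
  big_le summ anti)

/-- A system of local traces depending on several polynomials. -/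
structure Sys {k : Type} [Field k] [Fintype k] {ι : Type} [Fintype ι] (t : k[X] → (ι → k[X]) → ℂ)
    (n₀ : ℝ) : Prop where
  per : ∀ P : k[X], ∀ v v' : ι → k[X], (∀ i, P ∣ v i - v' i) → t P v = t P v'
  bound : ∀ P : k[X], P.Monic → Irreducible P → ∀ v, ‖t P v‖ ≤ n₀
  mean : ∀ P : k[X], P.Monic → Irreducible P → ∀ N : ℕ, P.natDegree ≤ N → ∀ ω : ℂ,
    mV N (fun v => (ω * t P v).re) = 0

section
variable {k : Type} [Field k] [Fintype k] {ι : Type} [Fintype ι]

/-- **The moments of the random sum.** -/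
theorem TT_moment {t : k[X] → (ι → k[X]) → ℂ} {n₀ : ℝ} (ht : Sys t n₀) (hn₀ : 0 < n₀) {z : ℂ}
    (hz : ‖z‖ = 1) {M N m : ℕ} (hm : 1 ≤ m) (hN : (2 * m + 1) * M ≤ N) :
    ∑ v : VV k ι N, TT (fun P => t P (fun i => (v i : k[X]))) M z ^ (2 * m) ≤
      (768 * n₀ ^ 2 * m) ^ m * (Fintype.card k : ℝ) ^ (Fintype.card ι * N) := by
  classical
  obtain ⟨r0, r1⟩ := rk_bounds k
  have hMp : (0 : ℝ) < (M : ℝ) + 1 := by positivity
  set I : Finset k[X] := (range M).biUnion fun n => IR k (n + 1) with hI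
  have hmem : ∀ P ∈ I, P.Monic ∧ Irreducible P ∧ P.natDegree ≤ M ∧ 1 ≤ P.natDegree := by
    intro P hP
    rw [hI, Finset.mem_biUnion] at hP
    obtain ⟨n, hn, hP⟩ := hP
    obtain ⟨g1, g2, g3⟩ := mem_IR.1 hP
    rw [mem_range] at hn
    exact ⟨g1, g2, by omega, by omega⟩
  have hdis : ((range M : Finset ℕ) : Set ℕ).PairwiseDisjoint (fun n => IR k (n + 1)) := by
    intro n _ m _ hnm
    rw [Function.onFun, Finset.disjoint_left]
    intro P h1 h2
    have := (mem_IR.1 h1).2.2.symm.trans (mem_IR.1 h2).2.2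
    exact hnm (by omega)
  set X : k[X] → (ι → k[X]) → ℝ := fun P v =>
    8 / ((M : ℝ) + 1) ^ 2 * ((M : ℝ) + 1 - P.natDegree) * ((P.natDegree : ℝ) * rk k ^ P.natDegree) *
      (-(z⁻¹ ^ P.natDegree) * t P v).re with hX
  set b : k[X] → ℝ := fun P => 8 / ((M : ℝ) + 1) * n₀ * (P.natDegree * rk k ^ P.natDegree) with hb
  have hsum : ∀ v, ∑ P ∈ I, X P v = TT (fun P => t P v) M z := by
    intro v
    rw [hI, Finset.sum_biUnion hdis]
    unfold TT
    refine Finset.sum_congr rfl fun n _ => ?_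
    refine Finset.sum_congr rfl fun P hP => ?_
    rw [hX]
    simp only
    rw [(mem_IR.1 hP).2.2]
    push_cast
    ring
  have hV : ∑ Q ∈ I, b Q ^ 2 ≤ 64 * n₀ ^ 2 := by
    rw [hI, Finset.sum_biUnion hdis]
    have h5 : ∀ n ∈ range M, ∑ P ∈ IR k (n + 1), b P ^ 2 ≤ 64 * n₀ ^ 2 / ((M : ℝ) + 1) := by
      intro n hn
      rw [mem_range] at hn
      have hnM : ((n + 1 : ℕ) : ℝ) ≤ M + 1 := by
        have : ((n + 1 : ℕ) : ℝ) ≤ M := by exact_mod_cast hn
        linarith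
      have h6 : ∑ P ∈ IR k (n + 1), b P ^ 2 = (8 / ((M : ℝ) + 1) * n₀) ^ 2 * ((n + 1 : ℕ) : ℝ) ^ 2 *
          ((#(IR k (n + 1)) : ℝ) * rk k ^ (2 * (n + 1))) := by
        rw [Finset.sum_congr rfl (g := fun _ => (8 / ((M : ℝ) + 1) * n₀ *
          (((n + 1 : ℕ) : ℝ) * rk k ^ (n + 1))) ^ 2) fun P hP => by
            rw [hb]
            simp only
            rw [(mem_IR.1 hP).2.2], Finset.sum_const, nsmul_eq_mul]
        ring
      rw [h6]
      have h7 := dens_le k (n := n + 1) (by omega)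
      have h8 : (0 : ℝ) < ((n + 1 : ℕ) : ℝ) := by positivity
      calc (8 / ((M : ℝ) + 1) * n₀) ^ 2 * ((n + 1 : ℕ) : ℝ) ^ 2 *
          ((#(IR k (n + 1)) : ℝ) * rk k ^ (2 * (n + 1))) ≤
          (8 / ((M : ℝ) + 1) * n₀) ^ 2 * ((n + 1 : ℕ) : ℝ) ^ 2 * (1 / ((n + 1 : ℕ) : ℝ)) :=
            mul_le_mul_of_nonneg_left h7 (by positivity)
        _ = 64 * n₀ ^ 2 / ((M : ℝ) + 1) ^ 2 * ((n + 1 : ℕ) : ℝ) := by
            field_simp
            ring
        _ ≤ 64 * n₀ ^ 2 / ((M : ℝ) + 1) ^ 2 * (M + 1) :=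
            mul_le_mul_of_nonneg_left hnM (by positivity)
        _ = _ := by
            field_simp
    refine (Finset.sum_le_sum h5).trans ?_
    rw [Finset.sum_const, card_range, nsmul_eq_mul]
    calc (M : ℝ) * (64 * n₀ ^ 2 / ((M : ℝ) + 1)) ≤ (M + 1) * (64 * n₀ ^ 2 / ((M : ℝ) + 1)) :=
          mul_le_mul_of_nonneg_right (by linarith) (by positivity)
      _ = _ := by field_simp
  have key := moment_sub (k := k) (X := X) (b := b) (x := M) (N := N) (I := I) (by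
      intro P hP
      obtain ⟨g1, g2, g3, _⟩ := hmem P hP
      refine ⟨g1, g2, g3, ?_⟩
      intro v v' h4
      rw [hX]
      simp only
      rw [ht.per P v v' h4]) (by
      intro P hP
      obtain ⟨g1, g2, g3, g4⟩ := hmem P hP
      have g3' : (P.natDegree : ℝ) ≤ M := by exact_mod_cast g3
      have g4' : (1 : ℝ) ≤ P.natDegree := by exact_mod_cast g4
      refine ⟨by positivity, fun v => ?_, ?_⟩
      · have h4 := ht.bound P g1 g2 v
        have h5 : |(-(z⁻¹ ^ P.natDegree) * t P v).re| ≤ n₀ := by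
          refine (Complex.abs_re_le_norm _).trans ?_
          rw [norm_mul, norm_neg, norm_pow, norm_inv, hz, inv_one, one_pow, one_mul]
          exact h4
        rw [hX]
        simp only
        have h6 : 0 ≤ 8 / ((M : ℝ) + 1) ^ 2 * ((M : ℝ) + 1 - P.natDegree) := by
          have : 0 ≤ (M : ℝ) + 1 - P.natDegree := by linarith
          positivity
        have h7 : 0 ≤ (P.natDegree : ℝ) * rk k ^ P.natDegree := by positivity
        rw [abs_mul, abs_of_nonneg (mul_nonneg h6 h7)]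
        have h8 : 8 / ((M : ℝ) + 1) ^ 2 * ((M : ℝ) + 1 - P.natDegree) ≤ 8 / ((M : ℝ) + 1) := by
          calc 8 / ((M : ℝ) + 1) ^ 2 * ((M : ℝ) + 1 - P.natDegree) ≤
              8 / ((M : ℝ) + 1) ^ 2 * ((M : ℝ) + 1) :=
                mul_le_mul_of_nonneg_left (by linarith) (by positivity)
            _ = _ := by field_simp
        calc 8 / ((M : ℝ) + 1) ^ 2 * ((M : ℝ) + 1 - P.natDegree) * ((P.natDegree : ℝ) *
              rk k ^ P.natDegree) * |(-(z⁻¹ ^ P.natDegree) * t P v).re| ≤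
            8 / ((M : ℝ) + 1) * ((P.natDegree : ℝ) * rk k ^ P.natDegree) * n₀ := by
              refine mul_le_mul (mul_le_mul_of_nonneg_right h8 h7) h5 (abs_nonneg _) (by positivity)
          _ = b P := by
            rw [hb]
            ring
      · have h4 := ht.mean P g1 g2 N (by nlinarith) (-(z⁻¹ ^ P.natDegree))
        unfold mV at h4 ⊢
        rw [hX]
        simp only
        rw [mn_mul_left, h4, mul_zero]) hm hN (V := 64 * n₀ ^ 2) (by positivity) hV
  simp only [hsum] at key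
  have hc : (0 : ℝ) < Fintype.card (VV k ι N) := by exact_mod_cast Fintype.card_pos
  unfold mV mn at key
  rw [div_le_iff₀ hc, card_VV] at key
  refine key.trans (le_of_eq ?_)
  push_cast
  congr 1
  congr 1
  ring

open Classical in
/-- the families with many eigenvalues near a point -/
noncomputable def many (N : ℕ) (t : k[X] → (ι → k[X]) → ℂ) (G κ : ℝ) (z : ℂ)
    (R : ℕ) : Finset (VV k ι N) :=
  univ.filter fun v : VV k ι N => ∃ (E : ED (fun P => t P (fun i => (v i : k[X]))) G (κ * N))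
    (S : Finset (Fin E.D)), (∀ i ∈ S, ‖E.u i - z‖ ≤ 1 / N) ∧ R ≤ #S

/-- **Markov.** -/
lemma markov {t : k[X] → (ι → k[X]) → ℂ} {n₀ : ℝ} (ht : Sys t n₀) (hn₀ : 0 < n₀) {z : ℂ}
    (hz : ‖z‖ = 1) {M N m : ℕ}
    (hm : 1 ≤ m) (hN : (2 * m + 1) * M ≤ N) {R : ℝ} (hR : 0 < R) (s : Finset (VV k ι N))
    (hs : ∀ v ∈ s, R / 2 ≤ TT (fun P => t P (fun i => (v i : k[X]))) M z) :
    (#s : ℝ) ≤ (3072 * n₀ ^ 2 * m / R ^ 2) ^ m * (Fintype.card k : ℝ) ^ (Fintype.card ι * N) := by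
  have h1 := TT_moment ht hn₀ hz hm hN
  have h4 : (#s : ℝ) * (R / 2) ^ (2 * m) ≤
      ∑ v : VV k ι N, TT (fun P => t P (fun i => (v i : k[X]))) M z ^ (2 * m) := by
    calc (#s : ℝ) * (R / 2) ^ (2 * m) = ∑ v ∈ s, (R / 2) ^ (2 * m) := by
          rw [Finset.sum_const, nsmul_eq_mul]
      _ ≤ ∑ v ∈ s, TT (fun P => t P (fun i => (v i : k[X]))) M z ^ (2 * m) :=
          Finset.sum_le_sum fun v hv => pow_le_pow_left₀ (by positivity) (hs v hv) _
      _ ≤ _ := Finset.sum_le_sum_of_subset_of_nonneg (subset_univ _) fun v _ _ => by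
          rw [pow_mul]
          positivity
  have h5 := h4.trans h1
  have h6 : (0 : ℝ) < (R / 2) ^ (2 * m) := by positivity
  rw [← le_div_iff₀ h6] at h5
  refine h5.trans (le_of_eq ?_)
  have h7 : (R / 2) ^ (2 * m) = (R ^ 2 / 4) ^ m := by
    rw [pow_mul]
    congr 1
    ring
  rw [h7, mul_div_right_comm, ← div_pow]
  congr 2
  field_simp
  ring

end

/-- **The tail of the number of eigenvalues near a point.** -/
theorem main_rt (n₀ : ℕ) (h3 : 3 ≤ n₀) {κ : ℝ} (hκ : 1 ≤ κ) :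
    ∃ c C : ℝ, 0 < c ∧ 0 < C ∧ ∀ (k : Type) [Field k] [Fintype k] (ι : Type) [Fintype ι],
      ∀ N : ℕ, 1 ≤ N → ∀ (t : k[X] → (ι → k[X]) → ℂ), Sys t (n₀ : ℝ) → ∀ G : ℝ, 0 ≤ G → G ≤ 2 * n₀ →
      ∀ z : ℂ, ‖z‖ = 1 → ∀ R : ℕ, 1 ≤ R →
        (#(many N t G κ z R) : ℝ) ≤
          C * (R : ℝ) ^ (-(c * R)) * (Fintype.card k : ℝ) ^ (Fintype.card ι * N) := by
  classical
  have hn : (3 : ℝ) ≤ n₀ := by exact_mod_cast h3
  set a : ℝ := (36 + 32 * n₀) * κ with ha
  have ha1 : 36 + 32 * (n₀ : ℝ) ≤ a := by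
    rw [ha]
    nlinarith
  have ha0 : 0 < a := by linarith
  set R0 : ℝ := 8 * a + 144 * (n₀ : ℝ) ^ 2 with hR0
  have hR01 : 1 ≤ R0 := by nlinarith
  set c : ℝ := 1 / (32 * a) with hc
  have hc0 : 0 < c := by positivity
  have hC1 : 1 ≤ R0 ^ (c * R0) := Real.one_le_rpow hR01 (by positivity)
  refine ⟨c, R0 ^ (c * R0), hc0, by linarith, ?_⟩
  intro k _ _ ι _ N hN t ht G hG0 hG z hz R hR
  have hRr : (1 : ℝ) ≤ R := by exact_mod_cast hR
  have hq0 : (0 : ℝ) < (Fintype.card k : ℝ) ^ (Fintype.card ι * N) := by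
    have : (0 : ℝ) < Fintype.card k := by exact_mod_cast Fintype.card_pos
    positivity
  have htriv : (#(many N t G κ z R) : ℝ) ≤ (Fintype.card k : ℝ) ^ (Fintype.card ι * N) := by
    have h1 : #(many N t G κ z R) ≤ Fintype.card (VV k ι N) := by
      rw [← card_univ]
      exact Finset.card_le_card (subset_univ _)
    rw [card_VV] at h1
    exact_mod_cast h1
  by_cases hRR : (R : ℝ) < R0
  · have h1 : (R : ℝ) ^ (c * R) ≤ R0 ^ (c * R0) := by
      calc (R : ℝ) ^ (c * R) ≤ R0 ^ (c * R) :=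
            Real.rpow_le_rpow (by linarith) hRR.le (by positivity)
        _ ≤ R0 ^ (c * R0) := Real.rpow_le_rpow_of_exponent_le hR01
            (mul_le_mul_of_nonneg_left hRR.le hc0.le)
    have h4 : 1 ≤ R0 ^ (c * R0) * (R : ℝ) ^ (-(c * R)) := by
      rw [Real.rpow_neg (by linarith), ← div_eq_mul_inv, one_le_div (by positivity)]
      exact h1
    nlinarith
  push Not at hRR
  -- the main case
  have hRa : 8 * a ≤ R := by
    have : (0 : ℝ) ≤ 144 * (n₀ : ℝ) ^ 2 := by positivity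
    linarith
  set y : ℝ := R / (8 * a) with hy
  have hy1 : 1 ≤ y := by
    rw [hy, one_le_div (by positivity)]
    exact hRa
  set m : ℕ := ⌊y⌋₊ with hm
  have hmy : (m : ℝ) ≤ y := Nat.floor_le (by linarith)
  have hm1 : 1 ≤ m := by
    rw [hm, Nat.le_floor_iff (by linarith)]
    exact_mod_cast hy1
  have hm1' : (1 : ℝ) ≤ m := by exact_mod_cast hm1
  have hmy2 : y / 2 ≤ m := by
    have h1 : y < m + 1 := Nat.lt_floor_add_one y
    linarith
  set M : ℕ := N / (2 * m + 1) with hM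
  have hMN : (2 * m + 1) * M ≤ N := Nat.mul_div_le N (2 * m + 1)
  have hMN2 : N < (2 * m + 1) * (M + 1) := by
    rw [hM, mul_add, mul_one]
    exact Nat.lt_mul_div_succ N (by omega)
  have hMN3 : (N : ℝ) ≤ (2 * m + 1) * (M + 1) := by exact_mod_cast hMN2.le
  have hNr : (1 : ℝ) ≤ N := by exact_mod_cast hN
  have hMle : (M : ℝ) ≤ N := by
    have : M ≤ N := Nat.div_le_self _ _
    exact_mod_cast this
  have hMδ : (M : ℝ) * (1 / N) ≤ 1 := by
    rw [mul_one_div, div_le_one (by linarith)]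
    exact hMle
  have hya : a * y = R / 8 := by
    rw [hy]
    field_simp
  have hs : ∀ v ∈ many N t G κ z R, (R : ℝ) / 2 ≤ TT (fun P => t P (fun i => (v i : k[X]))) M z := by
    intro v hv
    unfold many at hv
    rw [mem_filter] at hv
    obtain ⟨_, E, S, hS, hRS⟩ := hv
    have h4 := count_main E (by positivity) hG0 hz hMδ S hS
    have h5 : (R : ℝ) ≤ #S := by exact_mod_cast hRS
    have h6 : κ * N / ((M : ℝ) + 1) ≤ κ * (2 * m + 1) := by
      rw [div_le_iff₀ (by positivity), mul_assoc]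
      exact mul_le_mul_of_nonneg_left hMN3 (by linarith)
    have h7 : (36 + 32 * (n₀ : ℝ)) * (κ * N / (M + 1)) ≤ a * (2 * m + 1) := by
      rw [ha, mul_assoc]
      exact mul_le_mul_of_nonneg_left h6 (by positivity)
    have h8 : 0 ≤ κ * N / ((M : ℝ) + 1) := by positivity
    have h8' : (0 : ℝ) ≤ 32 * n₀ := by positivity
    have h7' : 36 * (κ * N / ((M : ℝ) + 1)) ≤ a * (2 * m + 1) := by nlinarith
    have h9 : a * m ≤ R / 8 := by
      rw [← hya]
      exact mul_le_mul_of_nonneg_left hmy ha0.le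
    nlinarith
  have key := markov ht (by positivity) hz hm1 hMN (R := R) (by linarith) _ hs
  have h4 : 3072 * (n₀ : ℝ) ^ 2 * m / (R : ℝ) ^ 2 ≤ (R : ℝ) ^ (-(1 / 2 : ℝ)) := by
    have h5 : 12 * (n₀ : ℝ) ≤ √(R : ℝ) := by
      apply Real.le_sqrt_of_sq_le
      have h6 : (12 * (n₀ : ℝ)) ^ 2 = 144 * (n₀ : ℝ) ^ 2 := by ring
      rw [h6]
      linarith
    have h6 : (R : ℝ) ^ (-(1 / 2 : ℝ)) = (√(R : ℝ))⁻¹ := by
      rw [Real.rpow_neg (by linarith), Real.sqrt_eq_rpow]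
    rw [h6]
    have hs0 : 0 < √(R : ℝ) := Real.sqrt_pos.2 (by linarith)
    have hs2 : √(R : ℝ) ^ 2 = R := Real.sq_sqrt (by linarith)
    rw [div_le_iff₀ (by positivity)]
    have h7 : (√(R : ℝ))⁻¹ * (R : ℝ) ^ 2 = √(R : ℝ) * R := by
      have : (R : ℝ) ^ 2 = √(R : ℝ) * (√(R : ℝ) * R) := by
        rw [← mul_assoc, ← sq, hs2]
        ring
      rw [this, ← mul_assoc, inv_mul_cancel₀ hs0.ne', one_mul]
    rw [h7]
    have h8 : 32 * (n₀ : ℝ) * m ≤ R / 8 := by
      have h9 : 32 * (n₀ : ℝ) * m ≤ a * m := mul_le_mul_of_nonneg_right (by linarith) (by linarith)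
      have h10 : a * m ≤ R / 8 := by
        rw [← hya]
        exact mul_le_mul_of_nonneg_left hmy ha0.le
      linarith
    calc 3072 * (n₀ : ℝ) ^ 2 * m = (12 * n₀) * (8 * (32 * n₀ * m)) := by ring
      _ ≤ √(R : ℝ) * (8 * (R / 8)) :=
          mul_le_mul h5 (by linarith) (by positivity) hs0.le
      _ = _ := by ring
  have h5 : (3072 * (n₀ : ℝ) ^ 2 * m / (R : ℝ) ^ 2) ^ m ≤ (R : ℝ) ^ (-(c * R)) := by
    calc (3072 * (n₀ : ℝ) ^ 2 * m / (R : ℝ) ^ 2) ^ m ≤ ((R : ℝ) ^ (-(1 / 2 : ℝ))) ^ m :=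
          pow_le_pow_left₀ (by positivity) h4 m
      _ = (R : ℝ) ^ (-(1 / 2 : ℝ) * m) := by
          rw [← Real.rpow_natCast, ← Real.rpow_mul (by linarith)]
      _ ≤ (R : ℝ) ^ (-(c * R)) := by
          apply Real.rpow_le_rpow_of_exponent_le hRr
          have h6 : c * R = y / 4 := by
            rw [hc, hy]
            field_simp
            ring
          rw [h6]
          linarith
  calc (#(many N t G κ z R) : ℝ) ≤
      (3072 * (n₀ : ℝ) ^ 2 * m / (R : ℝ) ^ 2) ^ m * (Fintype.card k : ℝ) ^ (Fintype.card ι * N) := key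
    _ ≤ (R : ℝ) ^ (-(c * R)) * (Fintype.card k : ℝ) ^ (Fintype.card ι * N) :=
        mul_le_mul_of_nonneg_right h5 hq0.le
    _ ≤ R0 ^ (c * R0) * (R : ℝ) ^ (-(c * R)) * (Fintype.card k : ℝ) ^ (Fintype.card ι * N) := by
        refine mul_le_mul_of_nonneg_right ?_ hq0.le
        have : (0 : ℝ) < (R : ℝ) ^ (-(c * R)) := by positivity
        nlinarith

/-- the number of members with at least `R` eigenvalues in a small disc -/
theorem tail_avg (n₀ : ℕ) (h3 : 3 ≤ n₀) {κ : ℝ} (hκ : 1 ≤ κ) :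
    ∃ c C : ℝ, 0 < c ∧ 0 < C ∧ ∀ (k : Type) [Field k] [Fintype k] (ι : Type) [Fintype ι],
      ∀ N : ℕ, 1 ≤ N → ∀ (t : k[X] → (ι → k[X]) → ℂ), Sys t (n₀ : ℝ) → ∀ G : ℝ, 0 ≤ G → G ≤ 2 * n₀ →
      ∀ R : ℕ, 1 ≤ R → ∀ (T : Type) [Fintype T] (w : T → VV k ι N) (_ : Function.Injective w)
        (E : ∀ v : T, ED (fun P => t P (fun i => (w v i : k[X]))) G (κ * N)) (z : ℂ), ‖z‖ = 1 →
        (#(open Classical in univ.filter fun v : T => R ≤ #(nearIdx (E v) N z)) : ℝ) ≤
          C * (R : ℝ) ^ (-(c * R)) * (Fintype.card k : ℝ) ^ (Fintype.card ι * N) := by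
  classical
  obtain ⟨c, C, hc, hC, H⟩ := main_rt n₀ h3 hκ
  refine ⟨c, C, hc, hC, ?_⟩
  intro k _ _ ι _ N hN t ht G hG0 hG R hR T _ w hw E z hz
  refine le_trans ?_ (H k ι N hN t ht G hG0 hG z hz R hR)
  have h5 : #((univ : Finset T).filter fun v => R ≤ #(nearIdx (E v) N z)) ≤ #(many N t G κ z R) := by
    refine card_le_card_of_injOn w ?_ ?_
    · intro v hv
      rw [mem_coe, mem_filter] at hv
      rw [mem_coe]
      unfold many
      rw [mem_filter]
      refine ⟨mem_univ _, E v, nearIdx (E v) N z, fun i hi => ?_, hv.2⟩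
      unfold nearIdx at hi
      exact (mem_filter.1 hi).2
    · intro v _ v' _ hvw
      exact hw hvw
  exact_mod_cast h5

/-- **The large generalized eigenspaces.** -/
theorem mult_avg (n₀ : ℕ) (h3 : 3 ≤ n₀) {κ : ℝ} (hκ : 1 ≤ κ) :
    ∃ c C : ℝ, 0 < c ∧ 0 < C ∧ ∀ (k : Type) [Field k] [Fintype k] (ι : Type) [Fintype ι],
      ∀ N : ℕ, 1 ≤ N → ∀ (t : k[X] → (ι → k[X]) → ℂ), Sys t (n₀ : ℝ) → ∀ G : ℝ, 0 ≤ G → G ≤ 2 * n₀ →
      ∀ R : ℕ, 1 ≤ R → ∀ (T : Type) [Fintype T] (w : T → VV k ι N) (_ : Function.Injective w)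
        (E : ∀ v : T, ED (fun P => t P (fun i => (w v i : k[X]))) G (κ * N)),
        (∑ v : T, (#(bigIdx (E v) R) : ℝ)) ≤
          C * (R : ℝ) ^ (-(c * R)) * N * (Fintype.card k : ℝ) ^ (Fintype.card ι * N) := by
  classical
  obtain ⟨c, C, hc, hC, H⟩ := tail_avg n₀ h3 hκ
  have ha : 0 < c / 2 := by positivity
  set S : ℝ := ∑' r : ℕ, (r : ℝ) ^ (-(c / 2 * r)) with hS
  have hS0 : 0 < S := by
    have h1 := (summ ha).sum_le_tsum {1} (fun r _ => by positivity)
    rw [sum_singleton, Nat.cast_one, Real.one_rpow] at h1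
    rw [hS]
    linarith
  refine ⟨c / 2, 7 * C * S, ha, by positivity, ?_⟩
  intro k _ _ ι _ N hN t ht G hG0 hG R hR T _ w hw E
  set L : ℕ := ⌊κ * N⌋₊ with hL
  have hLD : ∀ v : T, (E v).D ≤ L := fun v => Nat.le_floor (E v).hD
  have hRr : (1 : ℝ) ≤ R := by exact_mod_cast hR
  have hq0 : (0 : ℝ) < (Fintype.card k : ℝ) ^ (Fintype.card ι * N) := by
    have : (0 : ℝ) < Fintype.card k := by exact_mod_cast Fintype.card_pos
    positivity
  calc (∑ v : T, (#(bigIdx (E v) R) : ℝ)) ≤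
      ∑ v : T, ∑ j ∈ range (7 * N), ∑ r ∈ Icc 1 L,
        if max r R ≤ #(nearIdx (E v) N (pt N j)) then (1 : ℝ) else 0 := by
        refine sum_le_sum fun v _ => ?_
        have := big_le (E v) hN R (hLD v)
        exact_mod_cast this
    _ = ∑ j ∈ range (7 * N), ∑ r ∈ Icc 1 L, ∑ v : T,
        if max r R ≤ #(nearIdx (E v) N (pt N j)) then (1 : ℝ) else 0 := by
        rw [sum_comm]
        refine sum_congr rfl fun j _ => sum_comm
    _ ≤ ∑ j ∈ range (7 * N), ∑ r ∈ Icc 1 L,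
        C * (R : ℝ) ^ (-(c / 2 * R)) * (Fintype.card k : ℝ) ^ (Fintype.card ι * N) *
          (r : ℝ) ^ (-(c / 2 * r)) := by
        refine sum_le_sum fun j _ => sum_le_sum fun r hr => ?_
        rw [mem_Icc] at hr
        have hr1 : (1 : ℝ) ≤ r := by exact_mod_cast hr.1
        have h5 := H k ι N hN t ht G hG0 hG (max r R) (hR.trans (le_max_right _ _)) T w hw E
          (pt N j) (pt_norm N j)
        rw [← sum_filter, sum_const, nsmul_eq_mul, mul_one]
        refine h5.trans ?_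
        have h6 : ((max r R : ℕ) : ℝ) ^ (-(c * (max r R : ℕ))) ≤
            (R : ℝ) ^ (-(c / 2 * R)) * (r : ℝ) ^ (-(c / 2 * r)) := by
          set x : ℝ := ((max r R : ℕ) : ℝ) with hx
          have hx1 : (R : ℝ) ≤ x := Nat.cast_le.2 (le_max_right _ _)
          have hx2 : (r : ℝ) ≤ x := Nat.cast_le.2 (le_max_left _ _)
          have hx0 : 0 < x := by linarith
          have e : x ^ (-(c * x)) = x ^ (-(c / 2 * x)) * x ^ (-(c / 2 * x)) := by
            rw [← Real.rpow_add hx0]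
            congr 1
            ring
          rw [e]
          exact mul_le_mul (anti ha hRr hx1) (anti ha hr1 hx2) (by positivity) (by positivity)
        calc C * ((max r R : ℕ) : ℝ) ^ (-(c * (max r R : ℕ))) *
              (Fintype.card k : ℝ) ^ (Fintype.card ι * N) ≤
            C * ((R : ℝ) ^ (-(c / 2 * R)) * (r : ℝ) ^ (-(c / 2 * r))) *
              (Fintype.card k : ℝ) ^ (Fintype.card ι * N) :=
              mul_le_mul_of_nonneg_right (mul_le_mul_of_nonneg_left h6 hC.le) hq0.le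
          _ = _ := by ring
    _ = 7 * N * (C * (R : ℝ) ^ (-(c / 2 * R)) * (Fintype.card k : ℝ) ^ (Fintype.card ι * N) *
          ∑ r ∈ Icc 1 L, (r : ℝ) ^ (-(c / 2 * r))) := by
        rw [sum_const, card_range, nsmul_eq_mul, ← mul_sum]
        push_cast
        ring
    _ ≤ 7 * N * (C * (R : ℝ) ^ (-(c / 2 * R)) * (Fintype.card k : ℝ) ^ (Fintype.card ι * N) * S) := by
        refine mul_le_mul_of_nonneg_left ?_ (by positivity)
        refine mul_le_mul_of_nonneg_left ?_ (by positivity)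
        exact (summ ha).sum_le_tsum _ (fun r _ => by positivity)
    _ = 7 * C * S * (R : ℝ) ^ (-(c / 2 * R)) * N * (Fintype.card k : ℝ) ^ (Fintype.card ι * N) := by ring

end Pool.Agent.J6H2.NV
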