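import Pool.Agent.J6H2.NV.Eng

set_option autoImplicit false
set_option linter.all false

/-! From the trace formula to the engine; local traces with a small mean value. -/

namespace Pool.Agent.J6H2.NV

open Finset Polynomial
open Pool.Agent.N430.BP.FF (mn mn_add mn_sum mn_mul_left mn_const abs_mn_le mk_eq_iff fin_quot)
open Pool.Agent.J6H2.NP (rk rk_bounds IR mem_IR dens_le ED TT prop_sum rk_q_half sqrt_rk card_rk)

section
variable {k : Type} [Field k] [Fintype k]

open Classical in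
/-- the normalised local trace -/
noncomputable def tg (w : ℕ) {r : ℕ} (good : k[X] → Prop) (loc : k[X] → Fin r → ℂ)
    (P : k[X]) : ℂ :=
  if good P then ((rk k ^ (w * P.natDegree) : ℝ) : ℂ) * ∑ i, loc P i else 0

/-- **The explicit formula.** -/
theorem form_core {w r : ℕ} {good : k[X] → Prop} {loc : k[X] → Fin r → ℂ}
    (hloc : ∀ P, P.Monic → Irreducible P → good P → ∀ i, ‖loc P i‖ ≤ √(Fintype.card k) ^ (w * P.natDegree))
    {K : ℝ} {D D' : ℕ} (α : Fin D → ℂ) (β : Fin D' → ℂ)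
    (hD' : (D' : ℝ) ≤ K) (hβ : ∀ j, ‖β j‖ ≤ √(Fintype.card k) ^ w)
    (hform : ∀ n : ℕ, 1 ≤ n → ∑ i, α i ^ n + ∑ j, β j ^ n =
      -∑ e ∈ n.divisors, ∑ P ∈ (open Classical in (IR k e).filter good),
        (e : ℂ) * ∑ i, loc P i ^ (n / e)) (n : ℕ) (hn : 1 ≤ n) :
    ‖∑ i, (α i * ((rk k ^ (w + 1) : ℝ) : ℂ)) ^ n +
      ((n * rk k ^ n : ℝ) : ℂ) * ∑ P ∈ IR k n, tg w good loc P‖ ≤ K * rk k ^ n + 2 * r := by
  classical
  obtain ⟨r0, r1⟩ := rk_bounds k
  set q : ℝ := ((Fintype.card k : ℕ) : ℝ) with hqd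
  set s : ℝ := rk k ^ n with hs
  have hs0 : 0 < s := by rw [hs]; positivity
  set W : ℝ := rk k ^ (w * n) with hW
  have hW0 : 0 < W := by rw [hW]; positivity
  have hWs : rk k ^ ((w + 1) * n) = W * s := by
    rw [hW, hs, ← pow_add]
    congr 1
    ring
  set G : ℕ → Finset k[X] := fun e => (IR k e).filter good with hG
  set g : ℕ → ℂ := fun e => ∑ P ∈ G e, (e : ℂ) * ∑ i, loc P i ^ (n / e) with hg
  have e1 : ∑ i, (α i * ((rk k ^ (w + 1) : ℝ) : ℂ)) ^ n = ((W * s : ℝ) : ℂ) * ∑ i, α i ^ n := by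
    rw [Finset.mul_sum]
    refine Finset.sum_congr rfl fun i _ => ?_
    rw [mul_pow, ← Complex.ofReal_pow, ← pow_mul, hWs, mul_comm]
  have e2 : ∑ i, α i ^ n = -g n - ∑ e ∈ n.properDivisors, g e - ∑ j, β j ^ n := by
    have h1 := hform n hn
    rw [← Nat.cons_self_properDivisors (by omega : n ≠ 0), Finset.sum_cons] at h1
    have h2 : ∑ i, α i ^ n + ∑ j, β j ^ n = -(g n + ∑ e ∈ n.properDivisors, g e) := h1
    linear_combination h2
  have e3 : ((W * s : ℝ) : ℂ) * g n = ((n * s : ℝ) : ℂ) * ∑ P ∈ IR k n, tg w good loc P := by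
    have h3 : ∑ P ∈ IR k n, tg w good loc P = ∑ P ∈ G n, (W : ℂ) * ∑ i, loc P i := by
      rw [hG]
      simp only
      rw [Finset.sum_filter]
      refine Finset.sum_congr rfl fun P hP => ?_
      unfold tg
      rw [(mem_IR.1 hP).2.2, hW]
    rw [h3, hg]
    simp only
    rw [Finset.mul_sum, Finset.mul_sum]
    refine Finset.sum_congr rfl fun P _ => ?_
    rw [Nat.div_self (by omega)]
    simp only [pow_one]
    push_cast
    ring
  have b1 : ‖∑ j, β j ^ n‖ ≤ K * W⁻¹ := by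
    refine (norm_sum_le _ _).trans ((Finset.sum_le_sum (g := fun _ => W⁻¹) fun j _ => ?_).trans ?_)
    · rw [norm_pow]
      refine (pow_le_pow_left₀ (norm_nonneg _) (hβ j) n).trans (le_of_eq ?_)
      rw [← pow_mul]
      exact sqrt_rk _
    · rw [Finset.sum_const, card_univ, Fintype.card_fin, nsmul_eq_mul]
      exact mul_le_mul_of_nonneg_right hD' (by positivity)
  have b3 : ‖∑ e ∈ n.properDivisors, g e‖ ≤ 2 * q ^ (n / 2) * (r * W⁻¹) := by
    refine (norm_sum_le _ _).trans ?_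
    have h1 : ∀ e ∈ n.properDivisors, ‖g e‖ ≤ ((e : ℝ) * (#(IR k e) : ℝ)) * (r * W⁻¹) := by
      intro e he
      rw [Nat.mem_properDivisors] at he
      refine (norm_sum_le _ _).trans ?_
      have h2 : ∀ P ∈ G e, ‖(e : ℂ) * ∑ i, loc P i ^ (n / e)‖ ≤ e * (r * W⁻¹) := by
        intro P hP
        rw [hG] at hP
        simp only [mem_filter] at hP
        obtain ⟨g1, g2, g3⟩ := mem_IR.1 hP.1
        rw [norm_mul, Complex.norm_natCast]
        refine mul_le_mul_of_nonneg_left ?_ (Nat.cast_nonneg _)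
        refine (norm_sum_le _ _).trans ((Finset.sum_le_sum (g := fun _ => W⁻¹) fun i _ => ?_).trans ?_)
        · rw [norm_pow]
          refine (pow_le_pow_left₀ (norm_nonneg _) (hloc P g1 g2 hP.2 i) _).trans (le_of_eq ?_)
          rw [g3, ← pow_mul, mul_assoc, Nat.mul_div_cancel' he.1, sqrt_rk]
        · rw [Finset.sum_const, card_univ, Fintype.card_fin, nsmul_eq_mul]
      refine (Finset.sum_le_sum h2).trans ?_
      rw [Finset.sum_const, nsmul_eq_mul]
      have h4 : (#(G e) : ℝ) ≤ #(IR k e) := by exact_mod_cast Finset.card_filter_le _ _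
      calc (#(G e) : ℝ) * (e * (r * W⁻¹)) ≤ (#(IR k e) : ℝ) * (e * (r * W⁻¹)) :=
            mul_le_mul_of_nonneg_right h4 (by positivity)
        _ = _ := by ring
    refine (Finset.sum_le_sum h1).trans ?_
    rw [← Finset.sum_mul]
    exact mul_le_mul_of_nonneg_right (prop_sum (by omega)) (by positivity)
  have e4 : ∑ i, (α i * ((rk k ^ (w + 1) : ℝ) : ℂ)) ^ n +
      ((n * rk k ^ n : ℝ) : ℂ) * ∑ P ∈ IR k n, tg w good loc P =
      ((W * s : ℝ) : ℂ) * (-∑ e ∈ n.properDivisors, g e - ∑ j, β j ^ n) := by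
    rw [e1, e2, ← hs, ← e3]
    ring
  rw [e4, norm_mul, Complex.norm_real, Real.norm_eq_abs, abs_of_nonneg (by positivity)]
  have h5 : ‖-∑ e ∈ n.properDivisors, g e - ∑ j, β j ^ n‖ ≤ 2 * q ^ (n / 2) * (r * W⁻¹) + K * W⁻¹ := by
    refine (norm_sub_le _ _).trans ?_
    rw [norm_neg]
    exact add_le_add b3 b1
  have h6 : s * q ^ (n / 2) ≤ 1 := rk_q_half n
  calc W * s * ‖-∑ e ∈ n.properDivisors, g e - ∑ j, β j ^ n‖ ≤
      W * s * (2 * q ^ (n / 2) * (r * W⁻¹) + K * W⁻¹) :=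
        mul_le_mul_of_nonneg_left h5 (by positivity)
    _ = K * s + 2 * r * (s * q ^ (n / 2)) := by
      field_simp
      ring
    _ ≤ K * s + 2 * r * 1 := by
      have : 2 * (r : ℝ) * (s * q ^ (n / 2)) ≤ 2 * r * 1 :=
        mul_le_mul_of_nonneg_left h6 (by positivity)
      linarith
    _ = _ := by ring

/-- **The data for the engine**, after subtraction of small mean values. -/
noncomputable def edOf {w r c : ℕ} {good : k[X] → Prop} {loc : k[X] → Fin r → ℂ}
    (hloc : ∀ P, P.Monic → Irreducible P → good P → ∀ i, ‖loc P i‖ ≤ √(Fintype.card k) ^ (w * P.natDegree))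
    {K : ℝ} {D D' : ℕ} (α : Fin D → ℂ) (β : Fin D' → ℂ)
    (hD : (D : ℝ) ≤ K) (hD' : (D' : ℝ) ≤ K) (hα : ∀ i, ‖α i‖ = √(Fintype.card k) ^ (w + 1))
    (hβ : ∀ j, ‖β j‖ ≤ √(Fintype.card k) ^ w)
    (hform : ∀ n : ℕ, 1 ≤ n → ∑ i, α i ^ n + ∑ j, β j ^ n =
      -∑ e ∈ n.divisors, ∑ P ∈ (open Classical in (IR k e).filter good),
        (e : ℂ) * ∑ i, loc P i ^ (n / e)) (μ : k[X] → ℂ)
    (hμ : ∀ P, P.Monic → Irreducible P → ‖μ P‖ ≤ c * rk k ^ P.natDegree) (t : k[X] → ℂ)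
    (ht : ∀ P, t P = tg w good loc P - μ P) :
    ED t (2 * r + c) K where
  D := D
  u := fun i => α i * ((rk k ^ (w + 1) : ℝ) : ℂ)
  hD := hD
  hu := fun i => by
    obtain ⟨r0, r1⟩ := rk_bounds k
    rw [norm_mul, hα i, sqrt_rk, Complex.norm_real, Real.norm_eq_abs, abs_of_nonneg (by positivity),
      inv_mul_cancel₀ (by positivity)]
  hform := by
    intro n hn
    obtain ⟨r0, r1⟩ := rk_bounds k
    have h1 := form_core hloc α β hD' hβ hform n hn
    have h2 : ∑ P ∈ IR k n, t P = ∑ P ∈ IR k n, tg w good loc P - ∑ P ∈ IR k n, μ P := by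
      rw [← Finset.sum_sub_distrib]
      exact Finset.sum_congr rfl fun P _ => ht P
    have h3 : ‖∑ P ∈ IR k n, μ P‖ ≤ (#(IR k n) : ℝ) * (c * rk k ^ n) := by
      refine (norm_sum_le _ _).trans
        ((Finset.sum_le_sum (g := fun _ => (c : ℝ) * rk k ^ n) fun P hP => ?_).trans ?_)
      · obtain ⟨g1, g2, g3⟩ := mem_IR.1 hP
        have := hμ P g1 g2
        rwa [g3] at this
      · rw [Finset.sum_const, nsmul_eq_mul]
    have h4 : (n * rk k ^ n) * ((#(IR k n) : ℝ) * (c * rk k ^ n)) ≤ c := by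
      have h5 := dens_le k (n := n) (by omega)
      have hn0 : (0 : ℝ) < n := by exact_mod_cast hn
      calc (n * rk k ^ n) * ((#(IR k n) : ℝ) * (c * rk k ^ n)) =
          (c * n) * ((#(IR k n) : ℝ) * rk k ^ (2 * n)) := by
            rw [two_mul, pow_add]
            ring
        _ ≤ (c * n) * (1 / n) := mul_le_mul_of_nonneg_left h5 (by positivity)
        _ = c := by field_simp
    have h6 : ∑ i, (α i * ((rk k ^ (w + 1) : ℝ) : ℂ)) ^ n + ((n * rk k ^ n : ℝ) : ℂ) *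
        ∑ P ∈ IR k n, t P = (∑ i, (α i * ((rk k ^ (w + 1) : ℝ) : ℂ)) ^ n +
          ((n * rk k ^ n : ℝ) : ℂ) * ∑ P ∈ IR k n, tg w good loc P) -
          ((n * rk k ^ n : ℝ) : ℂ) * ∑ P ∈ IR k n, μ P := by
      rw [h2]
      ring
    rw [h6]
    refine (norm_sub_le _ _).trans ?_
    have h7 : ‖((n * rk k ^ n : ℝ) : ℂ) * ∑ P ∈ IR k n, μ P‖ ≤ c := by
      rw [norm_mul, Complex.norm_real, Real.norm_eq_abs, abs_of_nonneg (by positivity)]
      exact (mul_le_mul_of_nonneg_left h3 (by positivity)).trans h4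
    linarith

end

section family
variable {k : Type} [Field k] [Fintype k] {ι : Type} [Fintype ι]

/-- the mean value over the residues -/
noncomputable def mu (g : ∀ P : k[X], (ι → k[X] ⧸ Ideal.span {P}) → ℂ) (P : k[X]) : ℂ :=
  (∑ᶠ a, g P a) / (Nat.card (ι → k[X] ⧸ Ideal.span {P}) : ℂ)

/-- the local function with mean value zero -/
noncomputable def tt (g : ∀ P : k[X], (ι → k[X] ⧸ Ideal.span {P}) → ℂ) (P : k[X]) (v : ι → k[X]) : ℂ :=
  g P (fun i => Ideal.Quotient.mk _ (v i)) - mu g P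

lemma mu_le {g : ∀ P : k[X], (ι → k[X] ⧸ Ideal.span {P}) → ℂ} {b : ℝ} {P : k[X]} (hP : P.Monic)
    (hg : ∀ a, ‖g P a‖ ≤ b) : ‖mu g P‖ ≤ b := by
  have := fin_quot hP
  let _ := Fintype.ofFinite (ι → k[X] ⧸ Ideal.span {P})
  unfold mu
  rw [finsum_eq_sum_of_fintype, Nat.card_eq_fintype_card]
  have hc : (0 : ℝ) < Fintype.card (ι → k[X] ⧸ Ideal.span {P}) := by exact_mod_cast Fintype.card_pos
  rw [norm_div, Complex.norm_natCast, div_le_iff₀ hc]
  refine (norm_sum_le _ _).trans ((Finset.sum_le_sum fun a _ => hg a).trans ?_)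
  rw [Finset.sum_const, card_univ, nsmul_eq_mul, mul_comm]

theorem sys_of {g : ∀ P : k[X], (ι → k[X] ⧸ Ideal.span {P}) → ℂ} {b n₀ : ℝ} (hb : 2 * b ≤ n₀)
    (hg : ∀ P : k[X], P.Monic → Irreducible P → ∀ a, ‖g P a‖ ≤ b) : Sys (tt g) n₀ := by
  classical
  refine ⟨fun P v v' h => ?_, fun P hm hi v => ?_, fun P hm hi N hN ω => ?_⟩
  · unfold tt
    have : (fun i => Ideal.Quotient.mk (Ideal.span {P}) (v i)) =
        fun i => Ideal.Quotient.mk (Ideal.span {P}) (v' i) := by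
      funext i
      exact (mk_eq_iff _ _ _).2 (h i)
    rw [this]
  · unfold tt
    refine (norm_sub_le _ _).trans ?_
    have h1 := hg P hm hi (fun i => Ideal.Quotient.mk _ (v i))
    have h2 := mu_le hm (hg P hm hi)
    linarith
  · have := fin_quot hm
    let _ := Fintype.ofFinite (ι → k[X] ⧸ Ideal.span {P})
    unfold tt
    have h1 := mV_res (ι := ι) hm hN (fun a => (ω * (g P a - mu g P)).re)
    rw [h1]
    unfold mn
    have hc : (Fintype.card (ι → k[X] ⧸ Ideal.span {P}) : ℂ) ≠ 0 := by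
      exact_mod_cast Fintype.card_ne_zero
    have h2 : ∑ a : ι → k[X] ⧸ Ideal.span {P}, (ω * (g P a - mu g P)).re = 0 := by
      rw [← Complex.re_sum, ← Finset.mul_sum, Finset.sum_sub_distrib, Finset.sum_const, card_univ,
        nsmul_eq_mul]
      have h3 : (Fintype.card (ι → k[X] ⧸ Ideal.span {P}) : ℂ) * mu g P = ∑ a, g P a := by
        unfold mu
        rw [finsum_eq_sum_of_fintype, Nat.card_eq_fintype_card]
        field_simp
      rw [h3, sub_self, mul_zero, Complex.zero_re]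
    rw [h2, zero_div]

end family

end Pool.Agent.J6H2.NV
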