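import Pool.Agent.J6H2.NV.Form

set_option autoImplicit false
set_option linter.all false

namespace Pool.Agent.J6H2.NV

/-- the choice of `R` -/
lemma log_choice {c C B : ℝ} (hc : 0 < c) (hC : 0 < C) (_ : 0 < B) :
    ∃ A : ℝ, 0 < A ∧ ∀ N R : ℕ, 16 ≤ N → A * Real.log N / Real.log (Real.log N) ≤ R →
      1 ≤ R ∧ C * (R : ℝ) ^ (-(c * R)) * N ≤ (N : ℝ) ^ (-B) := by
  have hlC : 0 ≤ |Real.log C| := abs_nonneg _
  refine ⟨max 1 (2 * (B + 1 + |Real.log C|) / c), lt_of_lt_of_le one_pos (le_max_left _ _), ?_⟩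
  set A := max 1 (2 * (B + 1 + |Real.log C|) / c) with hA
  have hA1 : 1 ≤ A := le_max_left _ _
  have hA2 : 2 * (B + 1 + |Real.log C|) ≤ c * A := by
    have := le_max_right 1 (2 * (B + 1 + |Real.log C|) / c)
    rw [div_le_iff₀ hc] at this
    linarith
  intro N R hN hR
  have hNr : (16 : ℝ) ≤ N := by exact_mod_cast hN
  have hN0 : (0 : ℝ) < N := by linarith
  set L := Real.log N with hL
  have hLe : Real.exp 1 ≤ L := by
    rw [hL, Real.le_log_iff_exp_le hN0]
    refine le_trans ?_ hNr
    have h1 : Real.exp 1 ≤ 2.7182818286 := Real.exp_one_lt_d9.le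
    have h2 : Real.log 16 = 4 * Real.log 2 := by
      rw [show (16 : ℝ) = 2 ^ 4 by norm_num, Real.log_pow]
      norm_num
    have h3 : Real.exp 1 ≤ Real.log 16 := by
      rw [h2]
      have := Real.log_two_gt_d9
      linarith
    calc Real.exp (Real.exp 1) ≤ Real.exp (Real.log 16) := Real.exp_le_exp.2 h3
      _ = 16 := Real.exp_log (by norm_num)
  have hL1 : 1 ≤ L := by
    have := Real.exp_one_gt_d9
    linarith
  have hL0 : 0 < L := by linarith
  set l := Real.log L with hl
  have hl1 : 1 ≤ l := by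
    rw [hl, Real.le_log_iff_exp_le hL0]
    exact hLe
  have hl0 : 0 < l := by linarith
  have hRr : L / l ≤ R := by
    refine le_trans ?_ hR
    rw [mul_div_assoc]
    have : 0 ≤ L / l := by positivity
    nlinarith
  have hLl : 0 < L / l := by positivity
  have hR0 : (0 : ℝ) < R := by linarith
  have hR1 : 1 ≤ R := by exact_mod_cast hR0
  refine ⟨hR1, ?_⟩
  have hlogR : l / 2 ≤ Real.log R := by
    have h1 : Real.log (L / l) ≤ Real.log R := Real.log_le_log hLl hRr
    rw [Real.log_div hL0.ne' hl0.ne'] at h1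
    have h2 : Real.log l ≤ l / 2 := by
      have h3 := Real.log_le_sub_one_of_pos (x := l / 2) (by positivity)
      rw [Real.log_div hl0.ne' (by norm_num)] at h3
      have h4 := Real.log_two_lt_d9
      linarith
    linarith
  have hRL : A * L / 2 ≤ R * Real.log R := by
    have h1 : A * L / l * (l / 2) ≤ R * Real.log R :=
      mul_le_mul hR hlogR (by positivity) hR0.le
    have h2 : A * L / l * (l / 2) = A * L / 2 := by
      field_simp
    linarith
  have h3 : (B + 1) * L + Real.log C ≤ c * R * Real.log R := by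
    have h4 : c * (A * L / 2) ≤ c * (R * Real.log R) := mul_le_mul_of_nonneg_left hRL hc.le
    have h5 : Real.log C ≤ |Real.log C| := le_abs_self _
    have h6 : (B + 1 + |Real.log C|) * L ≤ c * (A * L / 2) := by
      have := mul_le_mul_of_nonneg_right hA2 hL0.le
      linarith
    nlinarith
  have e1 : C * (R : ℝ) ^ (-(c * R)) * N = Real.exp (Real.log C - c * R * Real.log R + L) := by
    rw [Real.rpow_def_of_pos hR0, Real.exp_add, Real.exp_sub, Real.exp_log hC, hL, Real.exp_log hN0,
      div_eq_mul_inv, ← Real.exp_neg]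
    congr 3
    ring
  have e2 : (N : ℝ) ^ (-B) = Real.exp (-(B * L)) := by
    rw [Real.rpow_def_of_pos hN0]
    congr 1
    rw [hL]
    ring
  rw [e1, e2]
  apply Real.exp_le_exp.2
  linarith


end Pool.Agent.J6H2.NV
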