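import Pool.Agent.J6H2.NP.Base

set_option autoImplicit false
set_option linter.all false

/-! Several random polynomials: independence and moments (the case of two polynomials is in
`Pool.Agent.N430.BP.FF1`). -/

namespace Pool.Agent.J6H2.NV

open Finset Polynomial
open Pool.Agent.N430.BP.FF (mn mn_add mn_sum mn_mul_left mn_const abs_mn_le mn_surj mn_indep finDeg rd rd_apply
  mk_eq_iff crt fin_quot trunc_sum)

section poly
variable (k : Type) [Field k] [Fintype k] (ι : Type) [Fintype ι]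

/-- the families of polynomials of degree less than `N` -/
abbrev VV (N : ℕ) : Type := ι → degreeLT k N

noncomputable instance fintypeVV (N : ℕ) : Fintype (VV k ι N) := Fintype.ofFinite _

lemma card_VV (N : ℕ) : Fintype.card (VV k ι N) = Fintype.card k ^ (Fintype.card ι * N) := by
  rw [← Nat.card_eq_fintype_card, Nat.card_pi, Finset.prod_const, card_univ,
    Nat.card_congr (degreeLTEquiv k N).toEquiv,
    Nat.card_eq_fintype_card, Fintype.card_fun, Fintype.card_fin, ← pow_mul, mul_comm]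

variable {k ι}

/-- periodic functions of several polynomials -/
def Per (D : k[X]) (F : (ι → k[X]) → ℝ) : Prop :=
  ∀ v v' : ι → k[X], (∀ i, D ∣ v i - v' i) → F v = F v'

lemma Per.mono {D D' : k[X]} {F : (ι → k[X]) → ℝ} (h : Per D F) (hd : D ∣ D') : Per D' F :=
  fun v v' h1 => h v v' fun i => hd.trans (h1 i)

lemma Per.pow {D : k[X]} {F : (ι → k[X]) → ℝ} (h : Per D F) (n : ℕ) : Per D (fun v => F v ^ n) :=
  fun v v' h1 => by simp only [h v v' h1]

lemma Per.prod {κ : Type} (s : Finset κ) {D : k[X]} {F : κ → (ι → k[X]) → ℝ} (h : ∀ i ∈ s, Per D (F i)) :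
    Per D (fun v => ∏ i ∈ s, F i v) :=
  fun v v' h1 => Finset.prod_congr rfl fun i hi => h i hi v v' h1

/-- the mean over the families of polynomials of degree less than `N` -/
noncomputable def mV (N : ℕ) (F : (ι → k[X]) → ℝ) : ℝ :=
  mn (fun v : VV k ι N => F (fun i => (v i : k[X])))

/-- a periodic function as a function on the quotient -/
noncomputable def qf (D : k[X]) (F : (ι → k[X]) → ℝ)
    (w : ι → k[X] ⧸ Ideal.span {D}) : ℝ :=
  F (fun i => Function.surjInv Ideal.Quotient.mk_surjective (w i))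

lemma qf_mk {D : k[X]} {F : (ι → k[X]) → ℝ} (h : Per D F) (v : ι → k[X]) :
    qf D F (fun i => Ideal.Quotient.mk _ (v i)) = F v := by
  unfold qf
  refine h _ _ fun i => ?_
  rw [← mk_eq_iff]
  exact Function.surjInv_eq Ideal.Quotient.mk_surjective _

variable (ι) in
/-- the reduction of families -/
noncomputable def rp (D : k[X]) (N : ℕ) :
    VV k ι N →+ (ι → k[X] ⧸ Ideal.span {D}) where
  toFun v i := rd D N (v i)
  map_zero' := by
    funext i
    exact map_zero _
  map_add' v v' := by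
    funext i
    exact map_add _ _ _

lemma qf_rp {D : k[X]} {F : (ι → k[X]) → ℝ} (h : Per D F) {N : ℕ} (v : VV k ι N) :
    qf D F (rp ι D N v) = F (fun i => (v i : k[X])) := qf_mk h (fun i => (v i : k[X]))

lemma mV_indep {D P : k[X]} (hD : D.Monic) (hP : P.Monic) (hc : IsCoprime D P) {N : ℕ}
    (hN : D.natDegree + P.natDegree ≤ N) {F G : (ι → k[X]) → ℝ} (hF : Per D F) (hG : Per P G) :
    mV N (fun v => F v * G v) = mV N F * mV N G := by
  classical
  have := fin_quot hD
  have := fin_quot hP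
  let _ := Fintype.ofFinite (k[X] ⧸ Ideal.span {D})
  let _ := Fintype.ofFinite (k[X] ⧸ Ideal.span {P})
  have hs : Function.Surjective ((rp ι D N).prod (rp ι P N)) := by
    rintro ⟨a, c⟩
    have h0 : ∀ i, ∃ h : degreeLT k N, rd D N h = a i ∧ rd P N h = c i := by
      intro i
      obtain ⟨a', ha'⟩ := Ideal.Quotient.mk_surjective (a i)
      obtain ⟨c', hc'⟩ := Ideal.Quotient.mk_surjective (c i)
      obtain ⟨h, h1, h2⟩ := crt hD hP hc hN a' c'
      refine ⟨h, ?_, ?_⟩
      · rw [rd_apply, ← ha', mk_eq_iff]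
        exact h1
      · rw [rd_apply, ← hc', mk_eq_iff]
        exact h2
    choose h h1 h2 using h0
    exact ⟨h, Prod.ext (funext h1) (funext h2)⟩
  have h1 := mn_indep (rp ι D N) (rp ι P N) hs (qf D F) (qf P G)
  simp only [qf_rp hF, qf_rp hG] at h1
  exact h1

/-- the mean of a function of the residues -/
lemma mV_res {P : k[X]} (hP : P.Monic) {N : ℕ} (hN : P.natDegree ≤ N)
    [Fintype (ι → k[X] ⧸ Ideal.span {P})]
    (G : (ι → k[X] ⧸ Ideal.span {P}) → ℝ) :
    mV N (fun v : ι → k[X] => G (fun i => Ideal.Quotient.mk _ (v i))) = mn G := by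
  have hs : Function.Surjective (rp ι P N) := by
    intro a
    have h0 : ∀ i, ∃ h : degreeLT k N, rd P N h = a i := by
      intro i
      obtain ⟨a', ha'⟩ := Ideal.Quotient.mk_surjective (a i)
      obtain ⟨h, h1, _⟩ := crt hP monic_one isCoprime_one_right (N := N)
        (by rw [natDegree_one, add_zero]; exact hN) a' 0
      refine ⟨h, ?_⟩
      rw [rd_apply, ← ha', mk_eq_iff]
      exact h1
    choose h h1 using h0
    exact ⟨h, funext h1⟩
  exact mn_surj (rp ι P N) hs G

end poly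

section moments
variable {k : Type} [Field k] [Fintype k] {ι : Type} [Fintype ι]

variable {X : k[X] → (ι → k[X]) → ℝ} {b : k[X] → ℝ} {x N : ℕ}

lemma mV_split {I : Finset k[X]} (hI : ∀ P ∈ I, P.Monic ∧ Irreducible P ∧ P.natDegree ≤ x ∧ Per P (X P))
    {P : k[X]} (hP : P.Monic ∧ Irreducible P ∧ P.natDegree ≤ x ∧ Per P (X P)) (hPI : P ∉ I) {a c : ℕ}
    (ha : (a + 1) * x ≤ N) :
    mV N (fun v => (∑ Q ∈ I, X Q v) ^ a * X P v ^ c) =
      mV N (fun v => (∑ Q ∈ I, X Q v) ^ a) * mV N (fun v => X P v ^ c) := by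
  classical
  have h1 : ∀ v, (∑ Q ∈ I, X Q v) ^ a = ∑ f ∈ Fintype.piFinset (fun _ : Fin a => I), ∏ t, X (f t) v :=
    fun v => Finset.sum_pow' I (fun Q => X Q v) a
  simp only [h1, Finset.sum_mul]
  unfold mV
  rw [mn_sum, mn_sum, Finset.sum_mul]
  refine Finset.sum_congr rfl fun f hf => ?_
  rw [Fintype.mem_piFinset] at hf
  have hmon : (∏ t, f t).Monic := monic_prod_of_monic _ _ fun t _ => (hI _ (hf t)).1
  have hdeg : (∏ t, f t).natDegree ≤ a * x := by
    rw [natDegree_prod_of_monic _ _ fun t _ => (hI _ (hf t)).1]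
    refine (Finset.sum_le_card_nsmul _ _ x fun t _ => (hI _ (hf t)).2.2.1).trans ?_
    simp
  have hcop : IsCoprime (∏ t, f t) P := by
    refine IsCoprime.prod_left fun t _ => ?_
    have hne : f t ≠ P := fun h => hPI (h ▸ hf t)
    rw [(hI _ (hf t)).2.1.coprime_iff_not_dvd]
    intro hd
    exact hne (Polynomial.eq_of_monic_of_associated (hI _ (hf t)).1 hP.1
      ((hI _ (hf t)).2.1.associated_of_dvd hP.2.1 hd))
  have hper : Per (∏ t, f t) (fun v => ∏ t, X (f t) v) :=
    Per.prod _ fun t _ => ((hI _ (hf t)).2.2.2).mono (Finset.dvd_prod_of_mem f (mem_univ t))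
  have := mV_indep hmon hP.1 hcop (N := N) (by nlinarith [hP.2.2.1]) hper (hP.2.2.2.pow c)
  exact this

/-- **Moments.** -/
theorem moment_le {I : Finset k[X]} (hI : ∀ P ∈ I, P.Monic ∧ Irreducible P ∧ P.natDegree ≤ x ∧
    Per P (X P)) (hb : ∀ P ∈ I, 0 ≤ b P ∧ (∀ v, |X P v| ≤ b P) ∧ mV N (X P) = 0) {z : ℝ} (hz : 0 < z) :
    ∀ n : ℕ, (n + 1) * x ≤ N → |mV N (fun v => (∑ Q ∈ I, X Q v) ^ n)| ≤
      n.factorial * (z⁻¹ ^ n * Real.exp (z ^ 2 * ∑ Q ∈ I, b Q ^ 2)) := by
  classical
  induction I using Finset.induction_on with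
  | empty =>
    intro n _
    rcases Nat.eq_zero_or_pos n with h0 | h0
    · subst h0
      simp [mV, mn_const]
    · simp only [Finset.sum_empty, zero_pow (by omega : n ≠ 0)]
      unfold mV
      rw [mn_const, abs_zero]
      positivity
  | insert P I hPI ih =>
    intro n hn
    have hI' := fun Q (hQ : Q ∈ I) => hI Q (mem_insert_of_mem hQ)
    have hb' := fun Q (hQ : Q ∈ I) => hb Q (mem_insert_of_mem hQ)
    have hP := hI P (mem_insert_self P I)
    obtain ⟨b0, b1, b2⟩ := hb P (mem_insert_self P I)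
    have ih' := ih hI' hb'
    set E := Real.exp (z ^ 2 * ∑ Q ∈ I, b Q ^ 2) with hE
    have hE0 : 0 < E := Real.exp_pos _
    have e1 : ∀ v, (∑ Q ∈ insert P I, X Q v) ^ n = ∑ j ∈ range (n + 1),
        (n.choose j : ℝ) * ((∑ Q ∈ I, X Q v) ^ (n - j) * X P v ^ j) := by
      intro v
      rw [Finset.sum_insert hPI, add_pow]
      refine Finset.sum_congr rfl fun j _ => ?_
      ring
    simp only [e1]
    have e2 : mV N (fun v => ∑ j ∈ range (n + 1),
        (n.choose j : ℝ) * ((∑ Q ∈ I, X Q v) ^ (n - j) * X P v ^ j)) =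
        ∑ j ∈ range (n + 1), (n.choose j : ℝ) * (mV N (fun v => (∑ Q ∈ I, X Q v) ^ (n - j)) *
          mV N (fun v => X P v ^ j)) := by
      unfold mV
      rw [mn_sum]
      refine Finset.sum_congr rfl fun j hj => ?_
      rw [mn_mul_left]
      congr 1
      refine mV_split hI' hP hPI ?_
      rw [mem_range] at hj
      refine le_trans (Nat.mul_le_mul_right x ?_) hn
      omega
    rw [e2]
    have h3 : ∀ j ∈ range (n + 1), |(n.choose j : ℝ) * (mV N (fun v => (∑ Q ∈ I, X Q v) ^ (n - j)) *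
          mV N (fun v => X P v ^ j))| ≤ (n.factorial * (z⁻¹ ^ n * E)) *
          (if j = 1 then 0 else (z * b P) ^ j / (j.factorial : ℝ)) := by
      intro j hj
      rw [mem_range] at hj
      by_cases h1 : j = 1
      · subst h1
        have b3 : mV N (fun v => X P v ^ 1) = 0 := by
          simp only [pow_one]
          exact b2
        rw [b3, if_pos rfl, mul_zero, mul_zero, mul_zero, abs_zero]
      · rw [if_neg h1, abs_mul, abs_mul, Nat.abs_cast]
        have g1 := ih' (n - j) (le_trans (Nat.mul_le_mul_right x (by omega)) hn)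
        have g2 : |mV N (fun v => X P v ^ j)| ≤ b P ^ j := by
          unfold mV
          refine abs_mn_le fun v => ?_
          rw [abs_pow]
          exact pow_le_pow_left₀ (abs_nonneg _) (b1 _) j
        have g3 := mul_le_mul g1 g2 (abs_nonneg _) (by positivity)
        refine (mul_le_mul_of_nonneg_left g3 (Nat.cast_nonneg _)).trans (le_of_eq ?_)
        have hch : (n.choose j : ℝ) = n.factorial / (j.factorial * (n - j).factorial) := by
          rw [Nat.cast_choose ℝ (by omega)]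
        have hzz : z⁻¹ ^ (n - j) = z⁻¹ ^ n * z ^ j := by
          have : n = (n - j) + j := by omega
          conv_rhs => rw [this, pow_add]
          rw [mul_assoc, ← mul_pow, inv_mul_cancel₀ hz.ne', one_pow, mul_one]
        rw [hch, hzz, mul_pow]
        have f1 : (j.factorial : ℝ) ≠ 0 := by exact_mod_cast j.factorial_ne_zero
        have f2 : ((n - j).factorial : ℝ) ≠ 0 := by exact_mod_cast (n - j).factorial_ne_zero
        field_simp
    refine (Finset.abs_sum_le_sum_abs _ _).trans ((Finset.sum_le_sum h3).trans ?_)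
    rw [← Finset.mul_sum]
    have h4 := trunc_sum (y := z * b P) (by positivity) n
    refine (mul_le_mul_of_nonneg_left h4 (by positivity)).trans (le_of_eq ?_)
    rw [Finset.sum_insert hPI, hE, mul_add, Real.exp_add, mul_pow]
    ring

/-- **Gaussian moments.** -/
theorem moment_sub {I : Finset k[X]} (hI : ∀ P ∈ I, P.Monic ∧ Irreducible P ∧ P.natDegree ≤ x ∧ Per P (X P))
    (hb : ∀ P ∈ I, 0 ≤ b P ∧ (∀ v, |X P v| ≤ b P) ∧ mV N (X P) = 0) {m : ℕ} (hm : 1 ≤ m)
    (hN : (2 * m + 1) * x ≤ N) {V : ℝ} (hV0 : 0 < V) (hV : ∑ Q ∈ I, b Q ^ 2 ≤ V) :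
    mV N (fun v => (∑ Q ∈ I, X Q v) ^ (2 * m)) ≤ (12 * m * V) ^ m := by
  have hm0 : (0 : ℝ) < m := by exact_mod_cast hm
  set z : ℝ := √(m / V) with hz
  have hzp : 0 < (m : ℝ) / V := by positivity
  have hz0 : 0 < z := Real.sqrt_pos.2 hzp
  have hz2 : z ^ 2 = m / V := Real.sq_sqrt hzp.le
  have h1 := moment_le hI hb hz0 (2 * m) hN
  have h2 : Real.exp (z ^ 2 * ∑ Q ∈ I, b Q ^ 2) ≤ 3 ^ m := by
    have h3 : z ^ 2 * ∑ Q ∈ I, b Q ^ 2 ≤ m := by
      rw [hz2]
      refine (mul_le_mul_of_nonneg_left hV hzp.le).trans (le_of_eq ?_)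
      field_simp
    have h4 : Real.exp 1 ≤ 3 := by
      have := Real.exp_one_lt_d9
      linarith
    calc Real.exp (z ^ 2 * ∑ Q ∈ I, b Q ^ 2) ≤ Real.exp m := Real.exp_le_exp.2 h3
      _ = Real.exp 1 ^ m := by rw [← Real.exp_nat_mul, mul_one]
      _ ≤ 3 ^ m := pow_le_pow_left₀ (Real.exp_pos _).le h4 m
  have h5 : z⁻¹ ^ (2 * m) = (V / m) ^ m := by
    rw [pow_mul, inv_pow, hz2, inv_div]
  have h6 : ((2 * m).factorial : ℝ) ≤ (4 * (m : ℝ) ^ 2) ^ m := by
    have h7 : (2 * m).factorial ≤ (2 * m) ^ (2 * m) := Nat.factorial_le_pow _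
    calc ((2 * m).factorial : ℝ) ≤ (((2 * m) ^ (2 * m) : ℕ) : ℝ) := by exact_mod_cast h7
      _ = (4 * (m : ℝ) ^ 2) ^ m := by
        push_cast
        rw [pow_mul]
        congr 1
        ring
  refine (le_abs_self _).trans (h1.trans ?_)
  rw [h5]
  calc ((2 * m).factorial : ℝ) * ((V / m) ^ m * Real.exp (z ^ 2 * ∑ Q ∈ I, b Q ^ 2)) ≤
      (4 * (m : ℝ) ^ 2) ^ m * ((V / m) ^ m * 3 ^ m) := by
        refine mul_le_mul h6 (mul_le_mul_of_nonneg_left h2 (by positivity)) (by positivity) (by positivity)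
    _ = (12 * m * V) ^ m := by
      rw [← mul_pow, ← mul_pow]
      congr 1
      field_simp
      ring

end moments

end Pool.Agent.J6H2.NV
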